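import Pool.Agent.TH107.Root

set_option autoImplicit false

/-!
# A two-valued cochain on the Cayley graph of a Coxeter group
-/

namespace Pool.Agent.K7.H94.Sgn

open Pool.Agent.Helper741 Pool.Agent.TH107 CoxeterSystem

variable {B : Type*} {M : CoxeterMatrix B} [Fintype B] [DecidableEq B]
variable {W : Type*} [Group W] (cs : CoxeterSystem M W)

/-! ### inversion sets -/

/-- the positive roots made negative by `w` -/
noncomputable def NN (w : W) : Finset (B → ℝ) := (inv_finite (cs := cs) w).toFinset

variable {cs}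

lemma mem_NN {w : W} {v : B → ℝ} : v ∈ NN cs w ↔ PR cs v ∧ geo cs w v ≤ 0 := by
  simp [NN]

lemma nonneg_of_lt {w : W} {i : B} (h : cs.length w < cs.length (cs.simple i * w)) :
    0 ≤ geo cs w⁻¹ (ee i) := by
  rw [geo_nonneg_iff]
  rw [← cs.length_inv w, ← cs.length_inv (cs.simple i * w), mul_inv_rev, cs.inv_simple] at h
  exact h

lemma lt_of_nonneg {w : W} {i : B} (h : 0 ≤ geo cs w⁻¹ (ee i)) :
    cs.length w < cs.length (cs.simple i * w) := by
  rw [geo_nonneg_iff] at h
  rw [← cs.length_inv w, ← cs.length_inv (cs.simple i * w), mul_inv_rev, cs.inv_simple]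
  exact h

lemma NN_step {w : W} {i : B} (h : 0 ≤ geo cs w⁻¹ (ee i)) :
    geo cs w⁻¹ (ee i) ∉ NN cs w ∧
      ∀ v, v ∈ NN cs (cs.simple i * w) ↔ v = geo cs w⁻¹ (ee i) ∨ v ∈ NN cs w := by
  have hr : IsRt cs (geo cs w⁻¹ (ee i)) := (isRt_ee cs i).geo w⁻¹
  constructor
  · intro hm
    have := (mem_NN.1 hm).2
    rw [geo_apply_inv] at this
    exact (isRt_ee cs i).not_both (ee_nonneg i) this
  · intro v
    rw [mem_NN, mem_NN]
    constructor
    · rintro ⟨hv, hv2⟩
      by_cases hw : geo cs w v ≤ 0
      · exact Or.inr ⟨hv, hw⟩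
      · left
        have h1 : 0 ≤ geo cs w v := (hv.root.geo w).not_nonpos.1 hw
        have h2 : PR cs (geo cs w v) := ⟨hv.root.geo w, h1⟩
        have h3 : geo cs w v = ee i := by
          apply h2.eq_ee
          rwa [geo_geo]
        rw [← h3, geo_inv_apply]
    · rintro (rfl | ⟨hv, hv2⟩)
      · refine ⟨⟨hr, h⟩, ?_⟩
        rw [← geo_geo, geo_apply_inv, geo_simple, sg_ee_self]
        exact neg_nonpos.2 (ee_nonneg i)
      · refine ⟨hv, ?_⟩
        by_contra hcon
        have h1 : IsRt cs (geo cs (cs.simple i * w) v) := hv.root.geo _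
        have h2 : 0 ≤ geo cs (cs.simple i * w) v := h1.not_nonpos.1 hcon
        have h3 : geo cs (cs.simple i * w) v = ee i := by
          apply PR.eq_ee (cs := cs) ⟨h1, h2⟩
          rw [geo_geo, cs.simple_mul_simple_cancel_left]
          exact hv2
        have h4 : geo cs w v = - ee i := by
          have := congrArg (geo cs (cs.simple i)) h3
          rw [geo_geo, cs.simple_mul_simple_cancel_left, geo_simple, sg_ee_self] at this
          exact this
        have h5 : v = - geo cs w⁻¹ (ee i) := by
          rw [← map_neg, ← h4, geo_inv_apply]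
        apply hv.root.not_both hv.pos
        rw [h5]
        exact neg_nonpos.2 h

open Classical in
lemma NN_insert {w : W} {i : B} (h : 0 ≤ geo cs w⁻¹ (ee i)) :
    NN cs (cs.simple i * w) = insert (geo cs w⁻¹ (ee i)) (NN cs w) := by
  ext v
  rw [(NN_step h).2, Finset.mem_insert]

/-! ### the cochain -/

section cochain
variable (cs) (φ : (B → ℝ) → (B → ℝ) → ZMod 2)

/-- the cochain attached to `φ` -/
noncomputable def ff (i : B) (w : W) : ZMod 2 :=
  if cs.length w < cs.length (cs.simple i * w) then ∑ β ∈ NN cs w, φ β (geo cs w⁻¹ (ee i))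
  else ∑ β ∈ NN cs (cs.simple i * w), φ β (geo cs (cs.simple i * w)⁻¹ (ee i))

lemma ff_mul (i : B) (w : W) : ff cs φ i (cs.simple i * w) = ff cs φ i w := by
  unfold ff
  rw [cs.simple_mul_simple_cancel_left]
  rcases cs.length_simple_mul w i with h | h
  · rw [if_neg (by omega), if_pos (by omega)]
  · rw [if_pos (by omega), if_neg (by omega)]

lemma ff_pos {i : B} {w : W} (h : 0 ≤ geo cs w⁻¹ (ee i)) :
    ff cs φ i w = ∑ β ∈ NN cs w, φ β (geo cs w⁻¹ (ee i)) := by
  unfold ff
  rw [if_pos (lt_of_nonneg h)]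

/-- the permutation attached to a simple reflection -/
noncomputable def PP (i : B) : Equiv.Perm (W × ZMod 2) where
  toFun x := (cs.simple i * x.1, x.2 + ff cs φ i x.1)
  invFun x := (cs.simple i * x.1, x.2 + ff cs φ i x.1)
  left_inv := by
    rintro ⟨w, e⟩
    simp only [cs.simple_mul_simple_cancel_left, ff_mul]
    rw [add_assoc, CharTwo.add_self_eq_zero, add_zero]
  right_inv := by
    rintro ⟨w, e⟩
    simp only [cs.simple_mul_simple_cancel_left, ff_mul]
    rw [add_assoc, CharTwo.add_self_eq_zero, add_zero]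

lemma PP_apply (i : B) (w : W) (e : ZMod 2) :
    PP cs φ i (w, e) = (cs.simple i * w, e + ff cs φ i w) := rfl

lemma PP_sq (i : B) : PP cs φ i * PP cs φ i = 1 := by
  ext x
  · obtain ⟨w, e⟩ := x
    simp [Equiv.Perm.mul_apply, PP_apply]
  · obtain ⟨w, e⟩ := x
    simp only [Equiv.Perm.mul_apply, PP_apply, ff_mul, Equiv.Perm.coe_one, id_eq]
    rw [add_assoc, CharTwo.add_self_eq_zero, add_zero]

/-- the central permutation -/
def QQ (W : Type*) : Equiv.Perm (W × ZMod 2) where
  toFun x := (x.1, x.2 + 1)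
  invFun x := (x.1, x.2 + 1)
  left_inv := by
    rintro ⟨w, e⟩
    simp only
    rw [add_assoc, CharTwo.add_self_eq_zero, add_zero]
  right_inv := by
    rintro ⟨w, e⟩
    simp only
    rw [add_assoc, CharTwo.add_self_eq_zero, add_zero]

end cochain

/-! ### roots of a dihedral subgroup -/

/-- the letters along an alternating path -/
def aa (i j : B) (k : ℕ) : B := if Even k then i else j

lemma aa_succ (i j : B) (k : ℕ) : aa i j (k + 1) = aa j i k := by
  by_cases h : Even k <;> simp [aa, h, Nat.even_add_one]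

variable (M) in
/-- the roots of a dihedral subgroup in their circular order -/
noncomputable def gam (i j : B) (k : ℕ) : B → ℝ :=
  qs (cc M i j) (k + 1) • (ee i : B → ℝ) + qs (cc M i j) k • (ee j : B → ℝ)

lemma gam_eq (i j : B) (k : ℕ) :
    geo cs (alt (cs.simple i) (cs.simple j) k) (ee (aa i j k)) = gam M i j k := by
  induction k generalizing i j with
  | zero => simp [aa, gam]
  | succ k ih =>
    rw [alt_succ, ← geo_geo, aa_succ, ih, gam, gam, geo_simple, map_add, map_smul, map_smul,
      sg_ee, sg_ee_self, qs_add_two, cc_symm M j i]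
    module

lemma simple_aa (i j : B) (k : ℕ) :
    cs.simple (aa i j k) = if Even k then cs.simple i else cs.simple j := by
  unfold aa; split_ifs <;> rfl

end Pool.Agent.K7.H94.Sgn
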