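import Pool.Agent.K7.H94.Sgn.Basic

set_option autoImplicit false

/-!
# Pairs of roots of a dihedral parabolic subgroup
-/

namespace Pool.Agent.K7.H94.Sgn

open Pool.Agent.Helper741 Pool.Agent.TH107 CoxeterSystem

variable {B : Type*} {M : CoxeterMatrix B} [Fintype B] [DecidableEq B]
variable {W : Type*} [Group W] {cs : CoxeterSystem M W}

section qs
variable {i j : B} (hij : i ≠ j) (h0 : M i j ≠ 0)
include hij h0

omit [Fintype B] [DecidableEq B]

lemma qs_reflect {k : ℕ} (hk : k ≤ M i j) : qs (cc M i j) (M i j - k) = qs (cc M i j) k := by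
  have hs := sin_pos_of_ne M hij h0
  have hm : (M i j : ℝ) ≠ 0 := by exact_mod_cast h0
  have h1 := qs_sin (Real.pi / (M i j : ℝ)) (M i j - k)
  have h2 := qs_sin (Real.pi / (M i j : ℝ)) k
  have h3 : ((M i j - k : ℕ) : ℝ) * (Real.pi / (M i j : ℝ)) =
      Real.pi - k * (Real.pi / (M i j : ℝ)) := by
    rw [Nat.cast_sub hk]; field_simp
  rw [h3, Real.sin_pi_sub, ← h2] at h1
  exact mul_right_cancel₀ hs.ne' h1

lemma qs_top : qs (cc M i j) (M i j) = 0 := by
  have := qs_reflect hij h0 (k := 0) (Nat.zero_le _)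
  simpa using this

lemma qs_pred : qs (cc M i j) (M i j - 1) = 1 := by
  have := qs_reflect hij h0 (k := 1) (by omega)
  simpa using this

lemma qs_pos {k : ℕ} (hk0 : 0 < k) (hk : k < M i j) : 0 < qs (cc M i j) k := by
  have hs := sin_pos_of_ne M hij h0
  have hm : (0 : ℝ) < (M i j : ℝ) := by exact_mod_cast Nat.pos_of_ne_zero h0
  have h1 : 0 < Real.sin (k * (Real.pi / (M i j : ℝ))) := by
    apply Real.sin_pos_of_pos_of_lt_pi
    · have : (0 : ℝ) < k := by exact_mod_cast hk0
      have := Real.pi_pos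
      positivity
    · have h : (k : ℝ) < (M i j : ℝ) := by exact_mod_cast hk
      rw [mul_div_assoc', div_lt_iff₀ hm]
      nlinarith [Real.pi_pos]
  rw [← qs_sin] at h1
  exact (pos_iff_pos_of_mul_pos h1).2 hs

lemma qs_zero_iff {k : ℕ} (hk : k ≤ M i j) : qs (cc M i j) k = 0 ↔ k = 0 ∨ k = M i j := by
  constructor
  · intro h
    by_contra hcon
    push Not at hcon
    have := qs_pos hij h0 (k := k) (by omega) (by omega)
    linarith
  · rintro (rfl | rfl)
    · simp
    · exact qs_top hij h0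

end qs

lemma gam_reflect {i j : B} (hij : i ≠ j) (h0 : M i j ≠ 0) {k : ℕ} (hk : k < M i j) :
    gam M j i k = gam M i j (M i j - 1 - k) := by
  rw [gam, gam, cc_symm M j i, show M i j - 1 - k + 1 = M i j - k by omega,
    show M i j - 1 - k = M i j - (k + 1) by omega, qs_reflect hij h0 (by omega),
    qs_reflect hij h0 (by omega), add_comm]

lemma gam_last {i j : B} (hij : i ≠ j) (h0 : M i j ≠ 0) : gam M i j (M i j - 1) = ee j := by
  have h := gam_reflect hij h0 (k := 0) (by omega)
  rw [Nat.sub_zero] at h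
  rw [← h, gam]
  simp

lemma gam_zero (i j : B) : gam M i j 0 = ee i := by simp [gam]

/-- along a minimal coset the roots of the dihedral subgroup are positive -/
lemma geo_gam_nonneg {i j : B} (hij : i ≠ j) {v : W} (hi : 0 ≤ geo cs v (ee i))
    (hj : 0 ≤ geo cs v (ee j)) {k : ℕ} (hk : k < M i j) : 0 ≤ geo cs v (gam M i j k) := by
  rw [gam, map_add, map_smul, map_smul]
  exact add_nonneg (smul_nonneg (qs_nonneg M hij (Or.inr (by omega))) hi)
    (smul_nonneg (qs_nonneg M hij (Or.inr (by omega))) hj)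

lemma isRt_gam (i j : B) (k : ℕ) : IsRt cs (gam M i j k) := by
  rw [← gam_eq (cs := cs)]
  exact (isRt_ee cs _).geo _

lemma gam_nonneg {i j : B} (hij : i ≠ j) {k : ℕ} (hk : k < M i j) : 0 ≤ gam M i j k :=
  add_nonneg (smul_nonneg (qs_nonneg M hij (Or.inr (by omega))) (ee_nonneg i))
    (smul_nonneg (qs_nonneg M hij (Or.inr (by omega))) (ee_nonneg j))

/-! ### canonical pairs -/

variable (cs) in
/-- `(x, y)` is the canonical pair of positive roots of a finite parabolic subgroup of rank two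
of a type `(i, j)` with `c i j` -/
def Can (c : B → B → Prop) (x y : B → ℝ) : Prop :=
  ∃ (w : W) (i j : B), i ≠ j ∧ M i j ≠ 0 ∧ c i j ∧ 0 ≤ geo cs w (ee i) ∧ 0 ≤ geo cs w (ee j) ∧
    geo cs w (ee i) = x ∧ geo cs w (ee j) = y

lemma Can.symm {c : B → B → Prop} (hc : ∀ i j, i ≠ j → M i j ≠ 0 → c i j → c j i) {x y : B → ℝ}
    (h : Can cs c x y) : Can cs c y x := by
  obtain ⟨w, i, j, h1, h2, h3, h4, h5, h6, h7⟩ := h
  exact ⟨w, j, i, h1.symm, by rwa [M.symmetric], hc i j h1 h2 h3, h5, h4, h7, h6⟩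

lemma comb_ee {i j : B} (hij : i ≠ j) {a b : ℝ} (h : a • (ee i : B → ℝ) + b • (ee j : B → ℝ) = 0) :
    a = 0 ∧ b = 0 := by
  constructor
  · have := congrFun h i
    simpa [ee, hij] using this
  · have := congrFun h j
    simpa [ee, hij.symm] using this

lemma comb_nonneg {i j : B} (hij : i ≠ j) {a b : ℝ}
    (h : 0 ≤ a • (ee i : B → ℝ) + b • (ee j : B → ℝ)) : 0 ≤ a ∧ 0 ≤ b := by
  constructor
  · have := h i
    simpa [ee, hij] using this
  · have := h j
    simpa [ee, hij.symm] using this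

lemma comb_nonpos {i j : B} (hij : i ≠ j) {a b : ℝ}
    (h : a • (ee i : B → ℝ) + b • (ee j : B → ℝ) ≤ 0) : a ≤ 0 ∧ b ≤ 0 := by
  constructor
  · have := h i
    simpa [ee, hij] using this
  · have := h j
    simpa [ee, hij.symm] using this

/-- if a root is a combination of two simple roots of another chamber, positive here, then the
coefficients are nonnegative -/
lemma coef_nonneg {x : B → ℝ} (hx : IsRt cs x) {v g w : W} (hv : v = w * g) {i' j' : B}
    (hij' : i' ≠ j') {a b : ℝ} (hg : geo cs g x = a • (ee i' : B → ℝ) + b • (ee j' : B → ℝ))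
    (h1 : 0 ≤ geo cs w (ee i')) (h2 : 0 ≤ geo cs w (ee j')) (h3 : 0 ≤ geo cs v x) :
    0 ≤ a ∧ 0 ≤ b := by
  rcases (hx.geo g).cases with h | h
  · rw [hg] at h
    exact comb_nonneg hij' h
  · exfalso
    rw [hg] at h
    obtain ⟨ha, hb⟩ := comb_nonpos hij' h
    have h4 : geo cs v x = a • geo cs w (ee i') + b • geo cs w (ee j') := by
      rw [hv, ← geo_geo, hg, map_add, map_smul, map_smul]
    have h5 : geo cs v x ≤ 0 := by
      rw [h4]
      exact add_nonpos (smul_nonpos_of_nonpos_of_nonneg ha h1)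
        (smul_nonpos_of_nonpos_of_nonneg hb h2)
    exact (hx.geo v).not_both h3 h5

/-- The only canonical pair inside a rank two finite parabolic subgroup is its own one. -/
lemma can_gam {c : B → B → Prop}
    (hc : ∀ i j i' j' (g : W), i ≠ j → M i j ≠ 0 → i' ≠ j' → M i' j' ≠ 0 →
      g * cs.simple i * g⁻¹ = cs.simple i' → g * cs.simple j * g⁻¹ = cs.simple j' →
      (c i j ↔ c i' j'))
    {i j : B} (hij : i ≠ j) (h0 : M i j ≠ 0) {v : W} (hi : 0 ≤ geo cs v (ee i))
    (hj : 0 ≤ geo cs v (ee j)) {l k : ℕ} (hlk : l < k) (hk : k < M i j) :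
    Can cs c (geo cs v (gam M i j l)) (geo cs v (gam M i j k)) ↔
      (l = 0 ∧ k = M i j - 1) ∧ c i j := by
  constructor
  · rintro ⟨w, i', j', hij', h0', hc', hi', hj', e1, e2⟩
    obtain ⟨g, hg⟩ : ∃ g, g = w⁻¹ * v := ⟨_, rfl⟩
    have hv : v = w * g := by rw [hg]; group
    have E1 : geo cs g (gam M i j l) = ee i' := by
      rw [hg, ← geo_geo, ← e1, geo_inv_apply]
    have E2 : geo cs g (gam M i j k) = ee j' := by
      rw [hg, ← geo_geo, ← e2, geo_inv_apply]
    obtain ⟨p, hp⟩ : ∃ p, p = qs (cc M i j) (l + 1) := ⟨_, rfl⟩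
    obtain ⟨q, hq⟩ : ∃ q, q = qs (cc M i j) l := ⟨_, rfl⟩
    obtain ⟨r, hr⟩ : ∃ r, r = qs (cc M i j) (k + 1) := ⟨_, rfl⟩
    obtain ⟨s, hs⟩ : ∃ s, s = qs (cc M i j) k := ⟨_, rfl⟩
    have hp0 : 0 ≤ p := by rw [hp]; exact qs_nonneg M hij (Or.inr (by omega))
    have hq0 : 0 ≤ q := by rw [hq]; exact qs_nonneg M hij (Or.inr (by omega))
    have hr0 : 0 ≤ r := by rw [hr]; exact qs_nonneg M hij (Or.inr (by omega))
    have hs0 : 0 ≤ s := by rw [hs]; exact qs_nonneg M hij (Or.inr (by omega))
    have G1 : gam M i j l = p • (ee i : B → ℝ) + q • (ee j : B → ℝ) := by rw [gam, hp, hq]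
    have G2 : gam M i j k = r • (ee i : B → ℝ) + s • (ee j : B → ℝ) := by rw [gam, hr, hs]
    have hp1 : p ≠ 0 := by
      rw [hp, Ne, qs_zero_iff hij h0 (by omega)]
      omega
    have hs1 : s ≠ 0 := by
      rw [hs, Ne, qs_zero_iff hij h0 (by omega)]
      omega
    -- the determinant
    have hA : (p * s - q * r) • (geo cs g (ee i)) = s • (ee i' : B → ℝ) + (-q) • (ee j' : B → ℝ) := by
      rw [← E1, ← E2, ← map_smul, ← map_smul, ← map_smul, ← map_add, G1, G2]
      congr 1
      module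
    have hB : (p * s - q * r) • (geo cs g (ee j)) = (-r) • (ee i' : B → ℝ) + p • (ee j' : B → ℝ) := by
      rw [← E1, ← E2, ← map_smul, ← map_smul, ← map_smul, ← map_add, G1, G2]
      congr 1
      module
    have hD : p * s - q * r ≠ 0 := by
      intro hD
      rw [hD, zero_smul] at hA
      exact hs1 (comb_ee hij' hA.symm).1
    have hA' : geo cs g (ee i) = (s / (p * s - q * r)) • (ee i' : B → ℝ) +
        (-q / (p * s - q * r)) • (ee j' : B → ℝ) := by
      have := congrArg (fun z => (p * s - q * r)⁻¹ • z) hA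
      simp only [smul_smul, smul_add] at this
      rw [inv_mul_cancel₀ hD, one_smul] at this
      rw [this, div_eq_inv_mul, div_eq_inv_mul]
    have hB' : geo cs g (ee j) = (-r / (p * s - q * r)) • (ee i' : B → ℝ) +
        (p / (p * s - q * r)) • (ee j' : B → ℝ) := by
      have := congrArg (fun z => (p * s - q * r)⁻¹ • z) hB
      simp only [smul_smul, smul_add] at this
      rw [inv_mul_cancel₀ hD, one_smul] at this
      rw [this, div_eq_inv_mul, div_eq_inv_mul]
    obtain ⟨ha1, ha2⟩ := coef_nonneg (isRt_ee cs i) hv hij' hA' hi' hj' hi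
    obtain ⟨hb1, hb2⟩ := coef_nonneg (isRt_ee cs j) hv hij' hB' hi' hj' hj
    have hDpos : 0 < p * s - q * r := by
      rcases lt_or_gt_of_ne hD with h | h
      · exfalso
        have h1 : s / (p * s - q * r) < 0 := div_neg_of_pos_of_neg (lt_of_le_of_ne hs0 hs1.symm) h
        linarith
      · exact h
    have hqz : q = 0 := by
      have h1 : 0 ≤ -q := by
        by_contra hcon
        push Not at hcon
        have := div_neg_of_neg_of_pos hcon hDpos
        linarith
      linarith
    have hrz : r = 0 := by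
      have h1 : 0 ≤ -r := by
        by_contra hcon
        push Not at hcon
        have := div_neg_of_neg_of_pos hcon hDpos
        linarith
      linarith
    have hl : l = 0 := by
      rw [hq, qs_zero_iff hij h0 (by omega)] at hqz
      omega
    have hk' : k = M i j - 1 := by
      rw [hr, qs_zero_iff hij h0 (by omega)] at hrz
      omega
    refine ⟨⟨hl, hk'⟩, ?_⟩
    have F1 : geo cs g (ee i) = ee i' := by rw [← E1, hl, gam_zero]
    have F2 : geo cs g (ee j) = ee j' := by rw [← E2, hk', gam_last hij h0]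
    have C1 : g * cs.simple i * g⁻¹ = cs.simple i' := by
      have h := rt_conj_pos (cs.isReflection_simple i) g (by rw [rt_simple, F1]; exact ee_nonneg i')
      rw [rt_simple, F1, ← rt_simple (cs := cs)] at h
      exact rt_inj ((cs.isReflection_simple i).conj g) (cs.isReflection_simple i') h
    have C2 : g * cs.simple j * g⁻¹ = cs.simple j' := by
      have h := rt_conj_pos (cs.isReflection_simple j) g (by rw [rt_simple, F2]; exact ee_nonneg j')
      rw [rt_simple, F2, ← rt_simple (cs := cs)] at h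
      exact rt_inj ((cs.isReflection_simple j).conj g) (cs.isReflection_simple j') h
    exact (hc i j i' j' g hij h0 hij' h0' C1 C2).2 hc'
  · rintro ⟨⟨rfl, rfl⟩, hcc⟩
    exact ⟨v, i, j, hij, h0, hcc, hi, hj, by rw [gam_zero], by rw [gam_last hij h0]⟩

end Pool.Agent.K7.H94.Sgn
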