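import Pool.Agent.K7.H94.Sgn.Path

set_option autoImplicit false

/-!
# The permutation representation of the sign extension
-/

namespace Pool.Agent.K7.H94.Sgn

open Pool.Agent.Helper741 Pool.Agent.TH107 CoxeterSystem Finset

variable {B : Type*} {M : CoxeterMatrix B} [Fintype B] [DecidableEq B]
variable {W : Type*} [Group W] (cs : CoxeterSystem M W)

open Classical in
/-- the function on pairs of roots attached to a set of types of pairs -/
noncomputable def phi (c : B → B → Prop) (x y : B → ℝ) : ZMod 2 :=
  if Can cs c x y ∧ WellOrderingRel x y then 1 else 0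

variable {cs}

open Classical in
lemma phi_add {c : B → B → Prop} (hc : ∀ i j, i ≠ j → M i j ≠ 0 → c i j → c j i) {x y : B → ℝ}
    (hxy : x ≠ y) : phi cs c x y + phi cs c y x = if Can cs c x y then 1 else 0 := by
  have hsymm : Can cs c y x ↔ Can cs c x y := ⟨fun h => h.symm hc, fun h => h.symm hc⟩
  have hwo : IsWellOrder (B → ℝ) WellOrderingRel := WellOrderingRel.isWellOrder
  unfold phi
  rw [hsymm]
  by_cases h : Can cs c x y
  · rcases trichotomous_of WellOrderingRel x y with h1 | h1 | h1
    · have h2 : ¬ WellOrderingRel y x := asymm_of WellOrderingRel h1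
      simp [h, h1, h2]
    · exact absurd h1 hxy
    · have h2 : ¬ WellOrderingRel x y := asymm_of WellOrderingRel h1
      simp [h, h1, h2]
  · simp [h]

open Classical in
/-- the braid relation with sign -/
lemma PP_pow {c : B → B → Prop}
    (hsymm : ∀ i j, i ≠ j → M i j ≠ 0 → c i j → c j i)
    (hc : ∀ i j i' j' (g : W), i ≠ j → M i j ≠ 0 → i' ≠ j' → M i' j' ≠ 0 →
      g * cs.simple i * g⁻¹ = cs.simple i' → g * cs.simple j * g⁻¹ = cs.simple j' →
      (c i j ↔ c i' j'))
    {i j : B} (hij : i ≠ j) (h0 : M i j ≠ 0) (w : W) (e : ZMod 2) :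
    ((PP cs (phi cs c) i * PP cs (phi cs c) j) ^ M i j) (w, e) =
      (w, e + if c i j then 1 else 0) := by
  apply pow_eq_of_min
  intro w hi hj e
  rw [pow_at_min (phi cs c) hij h0 hi hj]
  congr 2
  have hm2 : 2 ≤ M i j := two_le_of_ne M hij h0
  obtain ⟨-, -, hinj⟩ := NN_ww hij hi hj (k := M i j) le_rfl
  have h1 : ∀ k ∈ range (M i j), ∀ l ∈ range k,
      (phi cs c (geo cs w⁻¹ (gam M i j l)) (geo cs w⁻¹ (gam M i j k)) +
        phi cs c (geo cs w⁻¹ (gam M i j k)) (geo cs w⁻¹ (gam M i j l))) =
      if l = 0 then (if k = M i j - 1 then (if c i j then 1 else 0) else 0) else 0 := by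
    intro k hk l hl
    rw [mem_range] at hk hl
    rw [phi_add hsymm, can_gam hc hij h0 hi hj hl hk]
    · by_cases h2 : l = 0 <;> by_cases h3 : k = M i j - 1 <;> by_cases h4 : c i j <;>
        simp [h2, h3, h4]
    · intro heq
      have := hinj (by simp; omega) (by simp; omega) heq
      omega
  rw [sum_congr rfl fun k hk => sum_congr rfl (h1 k hk)]
  have h2 : ∀ k ∈ range (M i j), (∑ l ∈ range k,
      if l = 0 then (if k = M i j - 1 then (if c i j then (1 : ZMod 2) else 0) else 0) else 0) =
      if k = M i j - 1 then (if c i j then 1 else 0) else 0 := by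
    intro k hk
    by_cases hk1 : k = M i j - 1
    · simp only [hk1, if_true]
      rw [sum_ite_eq' (range (M i j - 1)) 0]
      rw [if_pos (by rw [mem_range]; omega)]
    · simp [hk1]
  rw [sum_congr rfl h2, sum_ite_eq' (range (M i j)) (M i j - 1), if_pos (by rw [mem_range]; omega)]

end Pool.Agent.K7.H94.Sgn
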