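import Pool.Agent.K7.H94.Sgn.Dih

set_option autoImplicit false

/-!
# Sums of the cochain along the two sides of a polygon
-/

namespace Pool.Agent.K7.H94.Sgn

open Pool.Agent.Helper741 Pool.Agent.TH107 CoxeterSystem Finset

variable {B : Type*} {M : CoxeterMatrix B} [Fintype B] [DecidableEq B]
variable {W : Type*} [Group W] {cs : CoxeterSystem M W}

/-- the vertices of an alternating path in `W` -/
def ww (cs : CoxeterSystem M W) (i j : B) (w : W) (k : ℕ) : W :=
  (alt (cs.simple i) (cs.simple j) k)⁻¹ * w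

lemma ww_zero (i j : B) (w : W) : ww cs i j w 0 = w := by simp [ww]

lemma ww_succ (i j : B) (w : W) (k : ℕ) :
    ww cs i j w (k + 1) = cs.simple (aa i j k) * ww cs i j w k := by
  rw [ww, ww, alt_succ', mul_inv_rev, simple_aa]
  split_ifs <;> simp [mul_assoc]

/-- the root of the `k`-th edge -/
lemma root_ww (i j : B) (w : W) (k : ℕ) :
    geo cs (ww cs i j w k)⁻¹ (ee (aa i j k)) = geo cs w⁻¹ (gam M i j k) := by
  rw [ww, mul_inv_rev, inv_inv, ← geo_geo, gam_eq]

section
variable {i j : B} (hij : i ≠ j) {w : W} (hi : 0 ≤ geo cs w⁻¹ (ee i)) (hj : 0 ≤ geo cs w⁻¹ (ee j))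
include hij hi hj

open Classical in
lemma NN_ww {k : ℕ} (hk : k ≤ M i j) :
    NN cs (ww cs i j w k) = NN cs w ∪ (range k).image (fun l => geo cs w⁻¹ (gam M i j l)) ∧
      (∀ l < k, geo cs w⁻¹ (gam M i j l) ∉ NN cs w) ∧
      Set.InjOn (fun l => geo cs w⁻¹ (gam M i j l)) (range k) := by
  induction k with
  | zero => simp [ww_zero]
  | succ k ih =>
    obtain ⟨ih1, ih2, ih3⟩ := ih (by omega)
    have h1 : 0 ≤ geo cs (ww cs i j w k)⁻¹ (ee (aa i j k)) := by
      rw [root_ww]
      exact geo_gam_nonneg hij hi hj (by omega)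
    have h2 := NN_insert h1
    have h3 := (NN_step h1).1
    rw [root_ww] at h2 h3
    rw [ih1, Finset.mem_union, not_or] at h3
    refine ⟨?_, ?_, ?_⟩
    · rw [ww_succ, h2, ih1, range_add_one, image_insert, Finset.union_insert]
    · intro l hl
      rcases Nat.lt_succ_iff_lt_or_eq.1 hl with h | rfl
      · exact ih2 l h
      · exact h3.1
    · rw [range_add_one, coe_insert]
      rw [Set.injOn_insert (by simp)]
      refine ⟨ih3, ?_⟩
      have := h3.2
      rw [← coe_image]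
      exact this

variable (φ : (B → ℝ) → (B → ℝ) → ZMod 2)

lemma ff_ww {k : ℕ} (hk : k < M i j) :
    ff cs φ (aa i j k) (ww cs i j w k) =
      ∑ β ∈ NN cs w, φ β (geo cs w⁻¹ (gam M i j k)) +
        ∑ l ∈ range k, φ (geo cs w⁻¹ (gam M i j l)) (geo cs w⁻¹ (gam M i j k)) := by
  classical
  have h1 : 0 ≤ geo cs (ww cs i j w k)⁻¹ (ee (aa i j k)) := by
    rw [root_ww]
    exact geo_gam_nonneg hij hi hj hk
  rw [ff_pos cs φ h1, root_ww]
  obtain ⟨h2, h3, h4⟩ := NN_ww hij hi hj (k := k) hk.le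
  rw [h2, sum_union, sum_image h4]
  rw [Finset.disjoint_left]
  intro a ha hb
  rw [mem_image] at hb
  obtain ⟨l, hl, rfl⟩ := hb
  exact h3 l (mem_range.1 hl) ha

end

variable (φ : (B → ℝ) → (B → ℝ) → ZMod 2)

lemma alt_PP_apply (i j : B) (w : W) (e : ZMod 2) (k : ℕ) :
    (alt (PP cs φ i) (PP cs φ j) k)⁻¹ (w, e) =
      (ww cs i j w k, e + ∑ l ∈ range k, ff cs φ (aa i j l) (ww cs i j w l)) := by
  induction k with
  | zero => simp [ww_zero]
  | succ k ih =>
    have h : (alt (PP cs φ i) (PP cs φ j) (k + 1))⁻¹ =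
        PP cs φ (aa i j k) * (alt (PP cs φ i) (PP cs φ j) k)⁻¹ := by
      rw [alt_succ', mul_inv_rev]
      congr 1
      unfold aa
      split_ifs
      · exact inv_eq_of_mul_eq_one_left (PP_sq cs φ i)
      · exact inv_eq_of_mul_eq_one_left (PP_sq cs φ j)
    rw [h, Equiv.Perm.mul_apply, ih, PP_apply, ww_succ, sum_range_succ, add_assoc]

lemma alt_split {G : Type*} [Group G] {a b : G} (ha : a * a = 1) (hb : b * b = 1) (m : ℕ) :
    alt a b m = (a * b) ^ m * alt b a m := by
  induction m generalizing a b with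
  | zero => simp
  | succ m ih =>
    have h1 : ∀ k : ℕ, a * (b * a) ^ k = (a * b) ^ k * a := by
      intro k
      induction k with
      | zero => simp
      | succ k ih2 => rw [pow_succ, ← mul_assoc, ih2, pow_succ]; simp only [mul_assoc]
    rw [alt_succ, ih hb ha, ← mul_assoc, h1, alt_succ b a]
    calc (a * b) ^ m * a * alt a b m = (a * b) ^ m * a * (b * b) * alt a b m := by rw [hb, mul_one]
      _ = (a * b) ^ (m + 1) * (b * alt a b m) := by rw [pow_succ]; simp only [mul_assoc]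

/-- the two sums agree up to the sum over the pairs -/
lemma sum_pairs (m : ℕ) (g : ℕ → ℕ → ZMod 2) :
    ∑ k ∈ range m, ∑ l ∈ range k, g (m - 1 - l) (m - 1 - k) =
      ∑ k ∈ range m, ∑ l ∈ range k, g k l := by
  rw [sum_sigma', sum_sigma']
  refine sum_bij' (fun x _ => ⟨m - 1 - x.2, m - 1 - x.1⟩) (fun x _ => ⟨m - 1 - x.2, m - 1 - x.1⟩)
    ?_ ?_ ?_ ?_ ?_
  · rintro ⟨a, b⟩ h
    simp only [mem_sigma, mem_range] at h ⊢
    omega
  · rintro ⟨a, b⟩ h
    simp only [mem_sigma, mem_range] at h ⊢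
    omega
  · rintro ⟨a, b⟩ h
    simp only [mem_sigma, mem_range] at h
    have h1 : m - 1 - (m - 1 - a) = a := by omega
    have h2 : m - 1 - (m - 1 - b) = b := by omega
    simp only [h1, h2]
  · rintro ⟨a, b⟩ h
    simp only [mem_sigma, mem_range] at h
    have h1 : m - 1 - (m - 1 - a) = a := by omega
    have h2 : m - 1 - (m - 1 - b) = b := by omega
    simp only [h1, h2]
  · rintro ⟨a, b⟩ h
    rfl

/-- the value of the polygon sum at a minimal vertex -/
lemma pow_at_min {i j : B} (hij : i ≠ j) (h0 : M i j ≠ 0) {w : W}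
    (hi : 0 ≤ geo cs w⁻¹ (ee i)) (hj : 0 ≤ geo cs w⁻¹ (ee j)) (e : ZMod 2) :
    ((PP cs φ i * PP cs φ j) ^ M i j) (w, e) =
      (w, e + ∑ k ∈ range (M i j), ∑ l ∈ range k,
        (φ (geo cs w⁻¹ (gam M i j l)) (geo cs w⁻¹ (gam M i j k)) +
          φ (geo cs w⁻¹ (gam M i j k)) (geo cs w⁻¹ (gam M i j l)))) := by
  obtain ⟨m, hm⟩ : ∃ m, m = M i j := ⟨_, rfl⟩
  have hm' : M j i = m := by rw [M.symmetric, hm]
  have e1 : (PP cs φ i * PP cs φ j) ^ m =
      alt (PP cs φ i) (PP cs φ j) m * (alt (PP cs φ j) (PP cs φ i) m)⁻¹ := by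
    rw [alt_split (PP_sq cs φ i) (PP_sq cs φ j)]
    group
  have hw : ww cs i j w m = ww cs j i w m := by
    rw [ww, ww, alt_comm_of_pow (cs.simple_mul_simple_self i) (cs.simple_mul_simple_self j)]
    rw [hm]; exact cs.simple_mul_simple_pow i j
  have hS : ∑ l ∈ range m, ff cs φ (aa j i l) (ww cs j i w l) =
      ∑ l ∈ range m, ff cs φ (aa i j l) (ww cs i j w l) +
      ∑ k ∈ range m, ∑ l ∈ range k,
        (φ (geo cs w⁻¹ (gam M i j l)) (geo cs w⁻¹ (gam M i j k)) +
          φ (geo cs w⁻¹ (gam M i j k)) (geo cs w⁻¹ (gam M i j l))) := by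
    have s1 : ∑ l ∈ range m, ff cs φ (aa i j l) (ww cs i j w l) =
        ∑ k ∈ range m, ∑ β ∈ NN cs w, φ β (geo cs w⁻¹ (gam M i j k)) +
        ∑ k ∈ range m, ∑ l ∈ range k,
          φ (geo cs w⁻¹ (gam M i j l)) (geo cs w⁻¹ (gam M i j k)) := by
      rw [← sum_add_distrib]
      exact sum_congr rfl fun k hk => ff_ww hij hi hj φ (by rw [mem_range] at hk; omega)
    have s2 : ∑ l ∈ range m, ff cs φ (aa j i l) (ww cs j i w l) =
        ∑ k ∈ range m, ∑ β ∈ NN cs w, φ β (geo cs w⁻¹ (gam M i j (m - 1 - k))) +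
        ∑ k ∈ range m, ∑ l ∈ range k,
          φ (geo cs w⁻¹ (gam M i j (m - 1 - l))) (geo cs w⁻¹ (gam M i j (m - 1 - k))) := by
      rw [← sum_add_distrib]
      refine sum_congr rfl fun k hk => ?_
      rw [mem_range] at hk
      rw [ff_ww hij.symm hj hi φ (by omega), gam_reflect hij h0 (by omega), ← hm]
      congr 1
      refine sum_congr rfl fun l hl => ?_
      rw [mem_range] at hl
      rw [gam_reflect hij h0 (by omega), ← hm]
    rw [sum_range_reflect (fun k => ∑ β ∈ NN cs w, φ β (geo cs w⁻¹ (gam M i j k))) m,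
      sum_pairs m (fun a b => φ (geo cs w⁻¹ (gam M i j a)) (geo cs w⁻¹ (gam M i j b)))] at s2
    rw [s1, s2]
    simp only [sum_add_distrib]
    have := CharTwo.add_self_eq_zero (∑ k ∈ range m, ∑ l ∈ range k,
          φ (geo cs w⁻¹ (gam M i j l)) (geo cs w⁻¹ (gam M i j k)))
    linear_combination -this
  rw [← hm, e1, Equiv.Perm.mul_apply, alt_PP_apply, hS]
  obtain ⟨T, hT⟩ : ∃ T, T = ∑ k ∈ range m, ∑ l ∈ range k,
        (φ (geo cs w⁻¹ (gam M i j l)) (geo cs w⁻¹ (gam M i j k)) +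
          φ (geo cs w⁻¹ (gam M i j k)) (geo cs w⁻¹ (gam M i j l))) := ⟨_, rfl⟩
  rw [← hT]
  have h1 := alt_PP_apply φ i j w (e + T) m (cs := cs)
  rw [Equiv.Perm.inv_eq_iff_eq] at h1
  rw [h1]
  congr 1
  rw [hw]
  congr 1
  ring

variable (cs) in
/-- `g` acts on the second coordinate by a translation depending on the vertex -/
lemma pow_at {i j : B} (w : W) :
    ∃ h : ZMod 2, ∀ e : ZMod 2, ((PP cs φ i * PP cs φ j) ^ M i j) (w, e) = (w, e + h) := by
  have key : ∀ (n : ℕ) (w : W), ∃ h : ZMod 2, ∀ e : ZMod 2,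
      ((PP cs φ i * PP cs φ j) ^ n) (w, e) = ((cs.simple i * cs.simple j) ^ n * w, e + h) := by
    intro n
    induction n with
    | zero => intro w; exact ⟨0, fun e => by simp⟩
    | succ n ih =>
      intro w
      obtain ⟨h, hh⟩ := ih w
      refine ⟨h + ff cs φ j ((cs.simple i * cs.simple j) ^ n * w) +
        ff cs φ i (cs.simple j * ((cs.simple i * cs.simple j) ^ n * w)), fun e => ?_⟩
      rw [pow_succ', Equiv.Perm.mul_apply, hh, Equiv.Perm.mul_apply, PP_apply, PP_apply, pow_succ']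
      simp only [mul_assoc, add_assoc]
  obtain ⟨h, hh⟩ := key (M i j) w
  refine ⟨h, fun e => ?_⟩
  rw [hh, cs.simple_mul_simple_pow, one_mul]

lemma pow_conj {G : Type*} [Group G] {a b : G} (ha : a * a = 1) (hb : b * b = 1) (m : ℕ) :
    a * (a * b) ^ m * a = ((a * b) ^ m)⁻¹ ∧ b * (a * b) ^ m * b = ((a * b) ^ m)⁻¹ := by
  have hai : a⁻¹ = a := inv_eq_of_mul_eq_one_left ha
  have hbi : b⁻¹ = b := inv_eq_of_mul_eq_one_left hb
  have h1 : a * (a * b) * a⁻¹ = (a * b)⁻¹ := by
    rw [mul_inv_rev, hai, hbi, ← mul_assoc, ha, one_mul]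
  have h2 : b * (a * b) * b⁻¹ = (a * b)⁻¹ := by
    rw [mul_inv_rev, hai, hbi, mul_assoc, mul_assoc, hb, mul_one]
  constructor
  · calc a * (a * b) ^ m * a = a * (a * b) ^ m * a⁻¹ := by rw [hai]
      _ = _ := by rw [← conj_pow, h1, inv_pow]
  · calc b * (a * b) ^ m * b = b * (a * b) ^ m * b⁻¹ := by rw [hbi]
      _ = _ := by rw [← conj_pow, h2, inv_pow]

/-- The value of the polygon sum: if it is `d` at all minimal vertices, it is `d` everywhere. -/
lemma pow_eq_of_min {i j : B} (d : ZMod 2)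
    (hd : ∀ w : W, 0 ≤ geo cs w⁻¹ (ee i) → 0 ≤ geo cs w⁻¹ (ee j) → ∀ e : ZMod 2,
      ((PP cs φ i * PP cs φ j) ^ M i j) (w, e) = (w, e + d)) (w : W) (e : ZMod 2) :
    ((PP cs φ i * PP cs φ j) ^ M i j) (w, e) = (w, e + d) := by
  obtain ⟨n, hn⟩ : ∃ n, n = cs.length w := ⟨_, rfl⟩
  induction n using Nat.strong_induction_on generalizing w e with
  | _ n ih =>
    have step : ∀ a : B, (PP cs φ a * (PP cs φ i * PP cs φ j) ^ M i j * PP cs φ a =
        ((PP cs φ i * PP cs φ j) ^ M i j)⁻¹) → cs.length (cs.simple a * w) < cs.length w →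
        ((PP cs φ i * PP cs φ j) ^ M i j) (w, e) = (w, e + d) := by
      intro a ha hlt
      have h1 := ih _ (by omega) (cs.simple a * w) (e + d + ff cs φ a w) rfl
      have h2 := congrArg (fun g : Equiv.Perm (W × ZMod 2) => g (w, e + d)) ha
      simp only [Equiv.Perm.mul_apply, PP_apply] at h2
      rw [h1] at h2
      simp only [PP_apply, cs.simple_mul_simple_cancel_left, ff_mul] at h2
      rw [eq_comm, Equiv.Perm.inv_eq_iff_eq] at h2
      have h3 : e + d + ff cs φ a w + d + ff cs φ a w = e := by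
        have e1 := CharTwo.add_self_eq_zero d
        have e2 := CharTwo.add_self_eq_zero (ff cs φ a w)
        linear_combination e1 + e2
      rw [h3] at h2
      exact h2.symm
    obtain ⟨c1, c2⟩ := pow_conj (PP_sq cs φ i) (PP_sq cs φ j) (M i j)
    by_cases hi : cs.length (cs.simple i * w) < cs.length w
    · exact step i c1 hi
    by_cases hj : cs.length (cs.simple j * w) < cs.length w
    · exact step j c2 hj
    apply hd
    · apply nonneg_of_lt
      rcases cs.length_simple_mul w i with h | h <;> omega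
    · apply nonneg_of_lt
      rcases cs.length_simple_mul w j with h | h <;> omega

end Pool.Agent.K7.H94.Sgn
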